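import Pool.Agent.QSN.StmtsD

/-!
# Squad QSN, row SLQ: the representations
-/

set_option autoImplicit false

namespace Pool.Agent.QSN.H24

open Matrix Pool.Agent.QSX
open Pool.Agent.QSN

/-- the matrices of the quaternions `i`, `j`, `k` -/
noncomputable def qI : Matrix (Fin 2) (Fin 2) ℂ := !![Complex.I, 0; 0, -Complex.I]

noncomputable def qJ : Matrix (Fin 2) (Fin 2) ℂ := !![0, 1; -1, 0]

noncomputable def qK : Matrix (Fin 2) (Fin 2) ℂ := !![0, Complex.I; Complex.I, 0]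

noncomputable def qBas : QuaternionAlgebra.Basis (R := ℝ) (Matrix (Fin 2) (Fin 2) ℂ)
    (-1) 0 (-1) where
  i := qI
  j := qJ
  k := qK
  i_mul_i := by
    unfold qI
    ext a b
    fin_cases a <;> fin_cases b <;> simp [Matrix.mul_apply, Fin.sum_univ_two]
  j_mul_j := by
    unfold qJ
    ext a b
    fin_cases a <;> fin_cases b <;> simp [Matrix.mul_apply, Fin.sum_univ_two]
  i_mul_j := by
    unfold qI qJ qK
    ext a b
    fin_cases a <;> fin_cases b <;> simp [Matrix.mul_apply, Fin.sum_univ_two]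
  j_mul_i := by
    unfold qI qJ qK
    ext a b
    fin_cases a <;> fin_cases b <;> simp [Matrix.mul_apply, Fin.sum_univ_two]

theorem q_one : (∀ (A A' : Type) [DivisionRing A] [Algebra ℝ A] [DivisionRing A'] [Algebra ℝ A'],
    (A →ₐ[ℝ] A') → ∃ (ρ : A →ₐ[ℝ] Matrix (Fin 1) (Fin 1) A') (α β : Fin 1 → Fin 1),
      Function.Injective α ∧ Function.Injective β ∧
        ∀ x, (∀ i j, ρ x (α i) (β j) = 0) → x = 0) := by
  intro A A' _ _ _ _ f
  refine ⟨(Matrix.scalarAlgHom (Fin 1) ℝ).comp f, id, id, Function.injective_id,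
    Function.injective_id, ?_⟩
  intro x hx
  have h := hx 0 0
  have h2 : f x = 0 := by
    simpa using h
  exact (map_eq_zero f).1 h2

theorem q_two : (∃ (ρ : ℂ →ₐ[ℝ] Matrix (Fin 2) (Fin 2) ℝ) (α : Fin 2 → Fin 2)
    (β : Fin 1 → Fin 2), Function.Injective α ∧ Function.Injective β ∧
      ∀ x, (∀ i j, ρ x (α i) (β j) = 0) → x = 0) := by
  refine ⟨Algebra.leftMulMatrix Complex.basisOneI, id, fun _ => 0, Function.injective_id,
    fun a b _ => Subsingleton.elim a b, ?_⟩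
  intro x hx
  have h0 := hx 0 0
  have h1 := hx 1 0
  rw [Algebra.leftMulMatrix_complex] at h0 h1
  apply Complex.ext
  · simpa using h0
  · simpa using h1

theorem q_three : (∃ (ρ : Quaternion ℝ →ₐ[ℝ] Matrix (Fin 2) (Fin 2) ℂ) (α : Fin 2 → Fin 2)
    (β : Fin 1 → Fin 2), Function.Injective α ∧ Function.Injective β ∧
      ∀ x, (∀ i j, ρ x (α i) (β j) = 0) → x = 0) := by
  refine ⟨qBas.liftHom, id, fun _ => 0, Function.injective_id,
    fun a b _ => Subsingleton.elim a b, ?_⟩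
  intro x hx
  have h0 : (algebraMap ℝ (Matrix (Fin 2) (Fin 2) ℂ) x.re + x.imI • qI +
      x.imJ • qJ + x.imK • qK) 0 0 = 0 := hx 0 0
  have h1 : (algebraMap ℝ (Matrix (Fin 2) (Fin 2) ℂ) x.re + x.imI • qI +
      x.imJ • qJ + x.imK • qK) 1 0 = 0 := hx 1 0
  have h0' : (x.re : ℂ) + x.imI * Complex.I = 0 := by
    simpa [qI, qJ, qK, Matrix.algebraMap_matrix_apply] using h0
  have h1' : -(x.imJ : ℂ) + x.imK * Complex.I = 0 := by
    simpa [qI, qJ, qK, Matrix.algebraMap_matrix_apply] using h1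
  have a1 := congrArg Complex.re h0'
  have a2 := congrArg Complex.im h0'
  have a3 := congrArg Complex.re h1'
  have a4 := congrArg Complex.im h1'
  simp at a1 a2 a3 a4
  apply QuaternionAlgebra.ext
  · exact a1
  · exact a2
  · exact a3
  · exact a4

/-- The basis `1, i, j, k`. -/
noncomputable def qb : Module.Basis (Fin 4) ℝ (QuaternionAlgebra ℝ (-1) 0 (-1)) :=
  QuaternionAlgebra.basisOneIJK (-1 : ℝ) 0 (-1)

theorem qb_zero : qb 0 = (⟨1, 0, 0, 0⟩ : QuaternionAlgebra ℝ (-1) 0 (-1)) := by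
  unfold qb QuaternionAlgebra.basisOneIJK
  rw [Module.Basis.coe_ofEquivFun]
  apply QuaternionAlgebra.ext <;> simp

theorem qb_one : qb 1 = (⟨0, 1, 0, 0⟩ : QuaternionAlgebra ℝ (-1) 0 (-1)) := by
  unfold qb QuaternionAlgebra.basisOneIJK
  rw [Module.Basis.coe_ofEquivFun]
  apply QuaternionAlgebra.ext <;> simp

theorem qb_repr (y : QuaternionAlgebra ℝ (-1) 0 (-1)) :
    (qb.repr y : Fin 4 → ℝ) = ![y.re, y.imI, y.imJ, y.imK] :=
  QuaternionAlgebra.coe_basisOneIJK_repr (-1 : ℝ) 0 (-1) y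

theorem qb_mul (x : QuaternionAlgebra ℝ (-1) 0 (-1)) :
    Algebra.leftMulMatrix qb x 1 0 = x.imI ∧ Algebra.leftMulMatrix qb x 1 1 = x.re ∧
    Algebra.leftMulMatrix qb x 3 0 = x.imK ∧ Algebra.leftMulMatrix qb x 3 1 = -x.imJ := by
  refine ⟨?_, ?_, ?_, ?_⟩
  · rw [Algebra.leftMulMatrix_eq_repr_mul, qb_zero, qb_repr]
    simp
  · rw [Algebra.leftMulMatrix_eq_repr_mul, qb_one, qb_repr]
    simp
  · rw [Algebra.leftMulMatrix_eq_repr_mul, qb_zero, qb_repr]
    simp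
  · rw [Algebra.leftMulMatrix_eq_repr_mul, qb_one, qb_repr]
    simp

theorem q_four : (∃ (ρ : Quaternion ℝ →ₐ[ℝ] Matrix (Fin 4) (Fin 4) ℝ) (α β : Fin 2 → Fin 4),
      Function.Injective α ∧ Function.Injective β ∧
        ∀ x, (∀ i j, ρ x (α i) (β j) = 0) → x = 0) := by
  refine ⟨Algebra.leftMulMatrix qb, ![1, 3], ![0, 1], by decide, by decide, ?_⟩
  intro x hx
  have h00 : Algebra.leftMulMatrix qb x 1 0 = 0 := hx 0 0
  have h01 : Algebra.leftMulMatrix qb x 1 1 = 0 := hx 0 1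
  have h10 : Algebra.leftMulMatrix qb x 3 0 = 0 := hx 1 0
  have h11 : Algebra.leftMulMatrix qb x 3 1 = 0 := hx 1 1
  obtain ⟨e1, e2, e3, e4⟩ := qb_mul x
  rw [e1] at h00
  rw [e2] at h01
  rw [e3] at h10
  rw [e4] at h11
  apply QuaternionAlgebra.ext
  · exact h01
  · exact h00
  · exact neg_eq_zero.1 h11
  · exact h10

theorem slq : SlqStmt := ⟨q_one, q_two, q_three, q_four⟩

end Pool.Agent.QSN.H24
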