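import Pool.Agent.QSN.StmtsB2

/-!
# Squad QSN, row LIQ: linearity on the centre
-/

set_option autoImplicit false

namespace Pool.Agent.QSN.H24

open Matrix Finset Pool.Agent.QSX Filter Topology
open Pool.Agent.QSN

theorem exists_pos_le {ι : Type} [Fintype ι] (c : ι → ℝ) (hc : ∀ i, 0 < c i) :
    ∃ c0 > (0 : ℝ), ∀ i, c0 ≤ c i := by
  have hs : 0 ≤ ∑ i, (c i)⁻¹ := Finset.sum_nonneg fun i _ => (inv_pos.2 (hc i)).le
  refine ⟨(∑ i, (c i)⁻¹ + 1)⁻¹, by positivity, fun i => ?_⟩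
  rw [inv_le_comm₀ (by positivity) (hc i)]
  have := Finset.single_le_sum (f := fun i => (c i)⁻¹) (fun i _ => (inv_pos.2 (hc i)).le)
    (Finset.mem_univ i)
  linarith

theorem liq (hAdt : AdtStmt) (hOvs : OvsStmt) (hHul : HulStmt) : LiqStmt := by
  intro X Y hX H A
  obtain ⟨Q⟩ := hAdt X Y hX H A
  have s1 : ∀ q : Fin Y.m × Fin Y.m, ∃ c > (0 : ℝ), ∀ᶠ s in (A.S.ω : Filter ℕ),
      ∀ p ∈ {p : (Fin H.D → ℤ) × (Fin H.D → ℤ) | (∀ k, |p.1 k| ≤ (A.M s : ℤ)) ∧
        (∀ k, |p.2 k| ≤ (A.M s : ℤ))},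
      |Q.T s (p.1 + p.2) q.1 q.2 - Q.T s p.1 q.1 q.2 - Q.T s p.2 q.1 q.2| ≤
        Real.exp (-(c * A.S.R s)) := by
    intro q
    refine (hOvs A.S ((Fin H.D → ℤ) × (Fin H.D → ℤ))
      (fun s => {p : (Fin H.D → ℤ) × (Fin H.D → ℤ) | (∀ k, |p.1 k| ≤ (A.M s : ℤ)) ∧
        (∀ k, |p.2 k| ≤ (A.M s : ℤ))})
      (fun s p => Q.T s (p.1 + p.2) q.1 q.2 - Q.T s p.1 q.1 q.2 - Q.T s p.2 q.1 q.2) ?_).1 ?_
    · intro s
      refine ⟨0, ?_, ?_⟩
      · intro k
        simp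
      · intro k
        simp
    · intro p hp
      exact Q.add (fun s => (p s).1) (fun s => (p s).2) (fun s => (hp s).1) (fun s => (hp s).2)
        q.1 q.2
  choose c0 hc0 s1 using s1
  obtain ⟨c, hc, hcle⟩ := exists_pos_le c0 hc0
  have s2 : ∀ q : Fin Y.m × Fin Y.m, ∀ᶠ s in (A.S.ω : Filter ℕ),
      ∀ z ∈ {z : Fin H.D → ℤ | ∀ k, |z k| ≤ (A.M s : ℤ)},
      |Q.T s z q.1 q.2| ≤ Real.exp (c / 4 * A.S.R s) := by
    intro q
    refine (hOvs A.S (Fin H.D → ℤ) (fun s => {z : Fin H.D → ℤ | ∀ k, |z k| ≤ (A.M s : ℤ)})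
      (fun s z => Q.T s z q.1 q.2) ?_).2 ?_ (c / 4) (by positivity)
    · intro s
      refine ⟨0, ?_⟩
      intro k
      simp
    · intro z hz
      exact Q.md z hz q.1 q.2
  have s1' := Filter.eventually_all.2 s1
  have s2' := Filter.eventually_all.2 s2
  refine ⟨{ toAddQ := Q, lin := ⟨c / 8, by positivity, ?_⟩ }⟩
  filter_upwards [s1', s2', A.big c,
    A.S.ev_R (8 / c * Real.log (30 * ((H.D : ℝ) + 1)))] with s h1 h2 h3 h4
  intro z hz i j
  have hR1 := A.one_le s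
  have hR0 : 0 < A.S.R s := by linarith
  obtain ⟨K, hK⟩ := A.pow s
  set R := A.S.R s with hR
  set η : ℝ := Real.exp (-(c * R)) with hη
  set b : ℝ := Real.exp (c / 4 * R) with hb
  have hl2 : 0 < Real.log 2 := Real.log_pos (by norm_num)
  set k : ℕ := ⌊c / 2 * R / Real.log 2⌋₊ with hk
  have hk1 : (k : ℝ) * Real.log 2 ≤ c / 2 * R := by
    have := Nat.floor_le (show 0 ≤ c / 2 * R / Real.log 2 by positivity)
    rw [← hk, le_div_iff₀ hl2] at this
    exact this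
  have hk2 : c / 2 * R < ((k : ℝ) + 1) * Real.log 2 := by
    have := Nat.lt_floor_add_one (c / 2 * R / Real.log 2)
    rw [← hk, div_lt_iff₀ hl2] at this
    exact this
  have h2k : (2 : ℝ) ^ k = Real.exp ((k : ℝ) * Real.log 2) := by
    rw [← Real.rpow_natCast, Real.rpow_def_of_pos two_pos, mul_comm]
  have h2k1 : (2 : ℝ) ^ k ≤ Real.exp (c / 2 * R) := by
    rw [h2k]
    exact Real.exp_le_exp.2 hk1
  have h2k2 : Real.exp (c / 2 * R) ≤ 2 * 2 ^ k := by
    have e : 2 * (2 : ℝ) ^ k = Real.exp (((k : ℝ) + 1) * Real.log 2) := by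
      rw [h2k, add_mul, one_mul, Real.exp_add, Real.exp_log two_pos, mul_comm]
    rw [e]
    exact Real.exp_le_exp.2 hk2.le
  have hkK : k ≤ K := by
    have e1 : (2 : ℝ) ^ k ≤ 2 ^ K := by
      calc (2 : ℝ) ^ k ≤ Real.exp (c / 2 * R) := h2k1
        _ ≤ Real.exp (c * R) := Real.exp_le_exp.2 (by nlinarith)
        _ ≤ (A.M s : ℝ) := h3
        _ = 2 ^ K := by
            rw [hK]
            push_cast
            rfl
    exact (pow_le_pow_iff_right₀ (by norm_num : (1 : ℝ) < 2)).1 e1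
  have hul := hHul H.D K k (fun z => Q.T s z i j) η b hkK (Real.exp_pos _).le (Real.exp_pos _).le
  rw [← hK] at hul
  have hfin := hul (by
      intro z z' hz hz'
      refine (h1 (i, j) (z, z') ⟨hz, hz'⟩).trans ?_
      apply Real.exp_le_exp.2
      have := mul_le_mul_of_nonneg_right (hcle (i, j)) hR0.le
      linarith)
    (by
      intro z hz
      exact h2 (i, j) z hz) z hz
  refine hfin.trans ?_
  have hb1 : b / 2 ^ k ≤ 2 * Real.exp (-(c / 4 * R)) := by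
    rw [div_le_iff₀ (by positivity)]
    calc b = Real.exp (-(c / 4 * R)) * Real.exp (c / 2 * R) := by
          rw [hb, ← Real.exp_add]
          congr 1
          ring
      _ ≤ Real.exp (-(c / 4 * R)) * (2 * 2 ^ k) :=
          mul_le_mul_of_nonneg_left h2k2 (Real.exp_pos _).le
      _ = 2 * Real.exp (-(c / 4 * R)) * 2 ^ k := by ring
  have hη1 : 2 ^ k * η ≤ Real.exp (-(c / 4 * R)) := by
    calc 2 ^ k * η ≤ Real.exp (c / 2 * R) * η :=
          mul_le_mul_of_nonneg_right h2k1 (Real.exp_pos _).le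
      _ = Real.exp (-(c / 2 * R)) := by
          rw [hη, ← Real.exp_add]
          congr 1
          ring
      _ ≤ Real.exp (-(c / 4 * R)) := Real.exp_le_exp.2 (by nlinarith)
  have hD : (0 : ℝ) ≤ 10 * ((H.D : ℝ) + 1) := by positivity
  have hlog : Real.log (30 * ((H.D : ℝ) + 1)) ≤ c / 8 * R := by
    have e := mul_le_mul_of_nonneg_left h4 (show 0 ≤ c / 8 by positivity)
    have e2 : c / 8 * (8 / c * Real.log (30 * ((H.D : ℝ) + 1))) =
        Real.log (30 * ((H.D : ℝ) + 1)) := by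
      field_simp
    rw [e2] at e
    exact e
  have hexp : 30 * ((H.D : ℝ) + 1) ≤ Real.exp (c / 8 * R) := by
    rw [← Real.log_le_iff_le_exp (by positivity)]
    exact hlog
  calc 10 * ((H.D : ℝ) + 1) * (2 ^ k * η + b / 2 ^ k)
      ≤ 10 * ((H.D : ℝ) + 1) * (Real.exp (-(c / 4 * R)) + 2 * Real.exp (-(c / 4 * R))) :=
        mul_le_mul_of_nonneg_left (add_le_add hη1 hb1) hD
    _ = 30 * ((H.D : ℝ) + 1) * Real.exp (-(c / 4 * R)) := by ring
    _ ≤ Real.exp (c / 8 * R) * Real.exp (-(c / 4 * R)) :=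
        mul_le_mul_of_nonneg_right hexp (Real.exp_pos _).le
    _ = Real.exp (-(c / 8 * R)) := by
        rw [← Real.exp_add]
        congr 1
        ring

end Pool.Agent.QSN.H24
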